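import Pool.Agent.helper2.BB.Spec

/-! # Project bb, module C5: jets and Taylor coefficients -/

set_option autoImplicit false

namespace BB

open Metric MeasureTheory Set Filter Topology Asymptotics
open Pool.Agent.helper37.PR

theorem C5_order (h : ℂ → ℂ) (N : ℕ) (hh : AnalyticAt ℂ h 0)
    (ho : (fun κ : ℝ => h κ) =o[𝓝[>] 0] fun κ : ℝ => κ ^ N) :
    ∀ i < N + 1, iteratedDeriv i h 0 = 0 := by
  rw [← natCast_le_analyticOrderAt_iff_iteratedDeriv_eq_zero hh]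
  by_contra hlt
  rw [not_le] at hlt
  obtain ⟨k, hk⟩ : ∃ k : ℕ, analyticOrderAt h 0 = k :=
    ⟨_, (ENat.natCast_toNat hlt.ne_top).symm⟩
  rw [hk] at hlt
  have hkN : k < N + 1 := by exact_mod_cast hlt
  obtain ⟨g, hg, hg0, hge⟩ := (hh.analyticOrderAt_eq_natCast).mp hk
  apply hg0
  have hc : Tendsto (fun κ : ℝ => (κ : ℂ)) (𝓝[>] 0) (𝓝 0) := by
    have : Tendsto (fun κ : ℝ => (κ : ℂ)) (𝓝 0) (𝓝 ((0 : ℝ) : ℂ)) :=
      Complex.continuous_ofReal.continuousAt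
    rw [Complex.ofReal_zero] at this
    exact this.mono_left nhdsWithin_le_nhds
  have h1 : Tendsto (fun κ : ℝ => ‖g κ‖) (𝓝[>] 0) (𝓝 ‖g 0‖) :=
    (hg.continuousAt.tendsto.comp hc).norm
  have h2 : (fun κ : ℝ => h κ) =o[𝓝[>] 0] fun κ : ℝ => κ ^ k := by
    refine ho.trans_isBigO (IsBigO.of_bound 1 ?_)
    have h3 : ∀ᶠ κ : ℝ in 𝓝[>] 0, κ < 1 := by
      refine Filter.Eventually.filter_mono nhdsWithin_le_nhds ?_
      exact eventually_lt_nhds one_pos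
    filter_upwards [h3, self_mem_nhdsWithin] with κ hκ1 hκ0
    rw [one_mul, norm_pow, norm_pow, Real.norm_of_nonneg (le_of_lt hκ0)]
    exact pow_le_pow_of_le_one (le_of_lt hκ0) hκ1.le (by omega)
  have h4 : Tendsto (fun κ : ℝ => ‖h κ‖ / ‖κ ^ k‖) (𝓝[>] 0) (𝓝 0) :=
    h2.norm_norm.tendsto_div_nhds_zero
  have h5 : (fun κ : ℝ => ‖h κ‖ / ‖κ ^ k‖) =ᶠ[𝓝[>] 0] fun κ : ℝ => ‖g κ‖ := by
    filter_upwards [hc.eventually hge, self_mem_nhdsWithin] with κ hκ hκ0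
    have hκ0' : (0 : ℝ) < κ := hκ0
    rw [hκ, sub_zero, norm_smul, norm_pow, norm_pow, Complex.norm_real]
    have : ‖κ‖ ^ k ≠ 0 := pow_ne_zero _ (norm_ne_zero_iff.mpr hκ0'.ne')
    field_simp
  have h6 := tendsto_nhds_unique (h4.congr' h5) h1
  exact norm_eq_zero.mp h6.symm

theorem C5_bound (h : ℂ → ℂ) (r M : ℝ) (N : ℕ) (hr : 0 < r)
    (hd : ∀ z ∈ closedBall (0 : ℂ) r, AnalyticAt ℂ h z)
    (hM : ∀ z ∈ sphere (0 : ℂ) r, ‖h z‖ ≤ M) (hv : ∀ i < N + 1, iteratedDeriv i h 0 = 0)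
    (z : ℂ) (hz : ‖z‖ ≤ r / 2) : ‖h z‖ ≤ M * (‖z‖ / r) ^ (N + 1) * 2 := by
  have hdiff : DifferentiableOn ℂ h (ball 0 r) := fun w hw =>
    (hd w (ball_subset_closedBall hw)).differentiableAt.differentiableWithinAt
  have hdc : DiffContOnCl ℂ h (ball 0 r) := by
    refine ⟨hdiff, ?_⟩
    rw [closure_ball _ hr.ne']
    exact fun w hw => (hd w hw).continuousAt.continuousWithinAt
  have hM0 : 0 ≤ M := by
    refine le_trans (norm_nonneg _) (hM (r : ℂ) ?_)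
    rw [mem_sphere_zero_iff_norm, Complex.norm_real, Real.norm_of_nonneg hr.le]
  have hcoef := fun n => Complex.norm_iteratedDeriv_le_of_forall_mem_sphere_norm_le n hr hdc hM
  have hs := Complex.hasSum_taylorSeries_on_ball hdiff (z := z)
    (by rw [mem_ball_zero_iff]; linarith)
  have hs2 := (hasSum_nat_add_iff' (N + 1)).mpr hs
  rw [Finset.sum_eq_zero (fun i hi => by
    rw [hv i (Finset.mem_range.mp hi), smul_zero, smul_zero])] at hs2
  simp only [sub_zero] at hs2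
  have hq0 : 0 ≤ ‖z‖ / r := by positivity
  have hq : ‖z‖ / r ≤ 1 / 2 := by
    rw [div_le_iff₀ hr]
    linarith
  refine hs2.norm_le_of_bounded (hasSum_geometric_two.mul_left (M * (‖z‖ / r) ^ (N + 1)))
    fun n => ?_
  rw [norm_smul, norm_smul, norm_inv, norm_pow, Complex.norm_natCast]
  have hf : (0 : ℝ) < ((n + (N + 1)).factorial : ℝ) := by exact_mod_cast Nat.factorial_pos _
  calc ((n + (N + 1)).factorial : ℝ)⁻¹ *
      (‖z‖ ^ (n + (N + 1)) * ‖iteratedDeriv (n + (N + 1)) h 0‖)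
      ≤ ((n + (N + 1)).factorial : ℝ)⁻¹ * (‖z‖ ^ (n + (N + 1)) *
        (((n + (N + 1)).factorial : ℝ) * M / r ^ (n + (N + 1)))) := by
        gcongr
        exact hcoef _
    _ = M * (‖z‖ / r) ^ (N + 1) * (‖z‖ / r) ^ n := by
        rw [div_pow, div_pow, pow_add, pow_add]
        field_simp
        ring
    _ ≤ M * (‖z‖ / r) ^ (N + 1) * (1 / 2) ^ n := by
        gcongr

theorem C5 : C5_stmt := by
  intro Φ Φ₀ D N m hN hΦ hΦ₀ hD hyp
  rw [eventually_nhdsWithin_iff] at hyp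
  obtain ⟨ε1, hε1, h1⟩ := Metric.eventually_nhds_iff_ball.mp hΦ.eventually_analyticAt
  obtain ⟨ε2, hε2, h2⟩ := Metric.eventually_nhds_iff_ball.mp hΦ₀.eventually_analyticAt
  obtain ⟨ε3, hε3, h3⟩ := Metric.eventually_nhds_iff_ball.mp hD.eventually_analyticAt
  obtain ⟨ε4, hε4, h4⟩ := Metric.eventually_nhds_iff_ball.mp hyp
  obtain ⟨r, hr, hr1, hr2, hr3, hr4⟩ : ∃ r : ℝ, 0 < r ∧ r < ε1 ∧ r < ε2 ∧ r < ε3 ∧ r < ε4 := by
    refine ⟨min (min ε1 ε2) (min ε3 ε4) / 2, by positivity, ?_, ?_, ?_, ?_⟩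
    all_goals
      have h5 : min (min ε1 ε2) (min ε3 ε4) ≤ min ε1 ε2 := min_le_left _ _
      have h6 : min (min ε1 ε2) (min ε3 ε4) ≤ min ε3 ε4 := min_le_right _ _
      have h7 : min ε1 ε2 ≤ ε1 := min_le_left _ _
      have h8 : min ε1 ε2 ≤ ε2 := min_le_right _ _
      have h9 : min ε3 ε4 ≤ ε3 := min_le_left _ _
      have h10 : min ε3 ε4 ≤ ε4 := min_le_right _ _
      linarith
  have hA : ∀ κ ζ : ℂ, ‖κ‖ ≤ r → ‖ζ‖ ≤ r → AnalyticAt ℂ Φ (κ, ζ) := by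
    intro κ ζ hκ hζ
    apply h1
    rw [← ball_prod_same]
    exact ⟨by rw [mem_ball_zero_iff]; exact lt_of_le_of_lt hκ hr1,
      by rw [mem_ball_zero_iff]; exact lt_of_le_of_lt hζ hr1⟩
  have hA0 : ∀ ζ : ℂ, ‖ζ‖ ≤ r → AnalyticAt ℂ Φ₀ ζ := fun ζ hζ =>
    h2 ζ (by rw [mem_ball_zero_iff]; exact lt_of_le_of_lt hζ hr2)
  have hAD : ∀ ζ : ℂ, ‖ζ‖ ≤ r → AnalyticAt ℂ D ζ := fun ζ hζ =>
    h3 ζ (by rw [mem_ball_zero_iff]; exact lt_of_le_of_lt hζ hr3)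
  obtain ⟨C1, hC1⟩ := (isCompact_closedBall ((0 : ℂ), (0 : ℂ)) r).exists_bound_of_continuousOn
    (f := Φ) (fun p hp => by
      rw [← closedBall_prod_same] at hp
      exact (hA p.1 p.2 (mem_closedBall_zero_iff.mp hp.1)
        (mem_closedBall_zero_iff.mp hp.2)).continuousAt.continuousWithinAt)
  obtain ⟨C2, hC2⟩ := (isCompact_closedBall (0 : ℂ) r).exists_bound_of_continuousOn
    (f := Φ₀) (fun p hp => (hA0 p (mem_closedBall_zero_iff.mp hp)).continuousAt.continuousWithinAt)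
  obtain ⟨C3, hC3⟩ := (isCompact_closedBall (0 : ℂ) r).exists_bound_of_continuousOn
    (f := D) (fun p hp => (hAD p (mem_closedBall_zero_iff.mp hp)).continuousAt.continuousWithinAt)
  set M : ℝ := C1 + C2 + r ^ N * C3 with hMdef
  -- bound on the circle
  have key : ∀ ζ ∈ sphere (0 : ℂ) r, ∀ κ : ℂ, ‖κ‖ ≤ r / 2 →
      ‖Φ (κ, ζ) - Φ₀ ζ - κ ^ N * D ζ‖ ≤ M * (‖κ‖ / r) ^ (N + 1) * 2 := by
    intro ζ hζ κ hκ
    rw [mem_sphere_zero_iff_norm] at hζ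
    have hζ0 : ζ ≠ 0 := by
      rw [← norm_ne_zero_iff, hζ]
      exact hr.ne'
    have han : ∀ z ∈ closedBall (0 : ℂ) r,
        AnalyticAt ℂ (fun κ : ℂ => Φ (κ, ζ) - Φ₀ ζ - κ ^ N * D ζ) z := by
      intro z hz
      have h5 : AnalyticAt ℂ Φ (z, ζ) := hA z ζ (mem_closedBall_zero_iff.mp hz) hζ.le
      have h6 : AnalyticAt ℂ (fun κ : ℂ => Φ (κ, ζ)) z :=
        AnalyticAt.fun_comp (g := Φ) (f := fun κ : ℂ => (κ, ζ)) h5 (analyticAt_id.prod analyticAt_const)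
      exact (h6.sub analyticAt_const).sub ((analyticAt_id.pow N).mul analyticAt_const)
    have hv := C5_order (fun κ : ℂ => Φ (κ, ζ) - Φ₀ ζ - κ ^ N * D ζ) N
      (han 0 (mem_closedBall_self hr.le))
      (h4 ζ (by rw [mem_ball_zero_iff, hζ]; exact hr4) hζ0)
    refine C5_bound _ r M N hr han ?_ hv κ hκ
    intro z hz
    rw [mem_sphere_zero_iff_norm] at hz
    have h7 := hC1 (z, ζ) (by
      rw [← closedBall_prod_same]
      exact ⟨mem_closedBall_zero_iff.mpr hz.le, mem_closedBall_zero_iff.mpr hζ.le⟩)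
    have h8 := hC2 ζ (mem_closedBall_zero_iff.mpr hζ.le)
    have h9 := hC3 ζ (mem_closedBall_zero_iff.mpr hζ.le)
    calc ‖Φ (z, ζ) - Φ₀ ζ - z ^ N * D ζ‖ ≤ ‖Φ (z, ζ)‖ + ‖Φ₀ ζ‖ + ‖z ^ N * D ζ‖ :=
          (norm_sub_le _ _).trans (by gcongr; exact norm_sub_le _ _)
      _ ≤ C1 + C2 + r ^ N * C3 := by
          rw [norm_mul, norm_pow, hz]
          gcongr
  -- the coefficient
  have hcf : ∀ κ : ℝ, 0 < κ → κ ≤ r / 2 →
      ‖cf m (fun ζ => Φ (κ, ζ)) - cf m Φ₀ - (κ : ℂ) ^ N * cf m D‖ ≤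
        M * (κ / r) ^ (N + 1) * 2 / r ^ m := by
    intro κ hκ0 hκr
    have hκn : ‖(κ : ℂ)‖ = κ := by rw [Complex.norm_real, Real.norm_of_nonneg hκ0.le]
    have hslice : ∀ ζ ∈ closedBall (0 : ℂ) r, AnalyticAt ℂ (fun ζ => Φ (κ, ζ)) ζ := by
      intro ζ hζ
      have h5 : AnalyticAt ℂ Φ ((κ : ℂ), ζ) :=
        hA κ ζ (by rw [hκn]; linarith) (mem_closedBall_zero_iff.mp hζ)
      exact AnalyticAt.fun_comp (g := Φ) (f := fun ζ : ℂ => ((κ : ℂ), ζ)) h5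
        (analyticAt_const.prod analyticAt_id)
    have hg : ∀ ζ ∈ closedBall (0 : ℂ) r,
        AnalyticAt ℂ (fun ζ => Φ (κ, ζ) - Φ₀ ζ - (κ : ℂ) ^ N * D ζ) ζ := by
      intro ζ hζ
      exact ((hslice ζ hζ).sub (hA0 ζ (mem_closedBall_zero_iff.mp hζ))).sub
        (analyticAt_const.mul (hAD ζ (mem_closedBall_zero_iff.mp hζ)))
    have hdc : DiffContOnCl ℂ (fun ζ => Φ (κ, ζ) - Φ₀ ζ - (κ : ℂ) ^ N * D ζ) (ball 0 r) := by
      refine ⟨fun w hw =>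
        (hg w (ball_subset_closedBall hw)).differentiableAt.differentiableWithinAt, ?_⟩
      rw [closure_ball _ hr.ne']
      exact fun w hw => (hg w hw).continuousAt.continuousWithinAt
    have h5 := Complex.norm_iteratedDeriv_le_of_forall_mem_sphere_norm_le m hr hdc
      (C := M * (κ / r) ^ (N + 1) * 2) (fun ζ hζ => by
        have h6 := key ζ hζ κ (by rw [hκn]; exact hκr)
        rw [hκn] at h6
        exact h6)
    have h0 : (0 : ℂ) ∈ closedBall (0 : ℂ) r := mem_closedBall_self hr.le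
    have e1 : iteratedDeriv m (fun ζ => Φ (κ, ζ) - Φ₀ ζ - (κ : ℂ) ^ N * D ζ) 0 =
        iteratedDeriv m (fun ζ => Φ (κ, ζ)) 0 - iteratedDeriv m Φ₀ 0 -
          (κ : ℂ) ^ N * iteratedDeriv m D 0 := by
      have c1 : ContDiffAt ℂ m (fun ζ => Φ (κ, ζ)) 0 := (hslice 0 h0).contDiffAt
      have c2 : ContDiffAt ℂ m Φ₀ 0 := (hA0 0 (by simpa using hr.le)).contDiffAt
      have c3 : ContDiffAt ℂ m (fun ζ => (κ : ℂ) ^ N * D ζ) 0 :=
        contDiffAt_const.mul (hAD 0 (by simpa using hr.le)).contDiffAt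
      have e2 := iteratedDeriv_sub (c1.sub c2) c3
      have e3 := iteratedDeriv_sub c1 c2
      have e4 : iteratedDeriv m (fun ζ => (κ : ℂ) ^ N * D ζ) 0 =
          (κ : ℂ) ^ N * iteratedDeriv m D 0 := iteratedDeriv_const_mul_field _ _
      rw [e4] at e2
      rw [← e3]
      exact e2
    have hfac : (0 : ℝ) < (m.factorial : ℝ) := by exact_mod_cast Nat.factorial_pos _
    have e5 : cf m (fun ζ => Φ (κ, ζ)) - cf m Φ₀ - (κ : ℂ) ^ N * cf m D =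
        iteratedDeriv m (fun ζ => Φ (κ, ζ) - Φ₀ ζ - (κ : ℂ) ^ N * D ζ) 0 / (m.factorial : ℂ) := by
      rw [e1]
      unfold cf
      ring
    rw [e5, norm_div, Complex.norm_natCast, div_le_iff₀ hfac]
    calc _ ≤ _ := h5
      _ = _ := by ring
  -- conclusion
  have hO : (fun κ : ℝ => cf m (fun ζ => Φ (κ, ζ)) - cf m Φ₀ - (κ : ℂ) ^ N * cf m D)
      =O[𝓝[>] 0] fun κ : ℝ => κ ^ (N + 1) := by
    refine IsBigO.of_bound (M * (1 / r) ^ (N + 1) * 2 / r ^ m) ?_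
    have h3 : ∀ᶠ κ : ℝ in 𝓝[>] 0, κ < r / 2 := by
      refine Filter.Eventually.filter_mono nhdsWithin_le_nhds ?_
      exact eventually_lt_nhds (by positivity)
    filter_upwards [h3, self_mem_nhdsWithin] with κ hκ1 hκ0
    have hκ0' : (0 : ℝ) < κ := hκ0
    refine (hcf κ hκ0' hκ1.le).trans (le_of_eq ?_)
    rw [norm_pow, Real.norm_of_nonneg hκ0'.le, div_pow, div_pow]
    ring
  refine hO.trans_isLittleO ?_
  have h4 : (fun κ : ℝ => κ ^ (N + 1)) =o[𝓝 0] fun κ : ℝ => κ ^ N := isLittleO_pow_pow (by omega)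
  exact h4.mono nhdsWithin_le_nhds

end BB

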